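import Mathlib

namespace Pool.Agent.Results.MP_4a987e_co.Spider

open Matrix Unitary

def R (a b : Fin 17) : Bool := (a.1 == 0 && 1 ≤ b.1 && b.1 ≤ 8) || (1 ≤ a.1 && a.1 + 8 == b.1)

def G0 : SimpleGraph (Fin 17) where
  Adj x y := (R x y || R y x) = true
  symm := ⟨fun x y h => by rwa [Bool.or_comm]⟩
  loopless := ⟨by decide +kernel⟩

instance : DecidableRel G0.Adj := fun x y => inferInstanceAs (Decidable ((R x y || R y x) = true))

def ty (a : Fin 17) : ℕ := (a.1 + 7) / 8

def A2 : Matrix (Fin 17) (Fin 17) ℤ := fun a b =>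
  if ty a = 0 ∧ ty b = 0 then 8 else if ty a = 1 ∧ ty b = 1 then (if a = b then 2 else 1)
  else if ty a + ty b = 2 ∨ a = b then 1 else 0

def A3 : Matrix (Fin 17) (Fin 17) ℤ := fun a b =>
  if ty a + ty b = 1 then 9 else if ty a + ty b = 3 then (if G0.Adj a b then 2 else 1) else 0

lemma e2 : G0.adjMatrix ℤ * G0.adjMatrix ℤ = A2 := by decide +kernel
lemma e3 : A2 * G0.adjMatrix ℤ = A3 := by decide +kernel
lemma e5 : A2 * A3 + (9 : ℤ) • G0.adjMatrix ℤ = (10 : ℤ) • A3 := by decide +kernel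
lemma t2 : A2.trace = 32 := by decide +kernel
lemma t4 : (A2 * A2).trace = 176 := by decide +kernel

lemma cast_adj : G0.adjMatrix ℝ = (Int.castRingHom ℝ).mapMatrix (G0.adjMatrix ℤ) := by
  ext i j; simp [SimpleGraph.adjMatrix_apply]

lemma tr_pow {n : Type} [Fintype n] [DecidableEq n] {A : Matrix n n ℝ} (hA : A.IsHermitian)
    (k : ℕ) : (A ^ k).trace = ∑ i, hA.eigenvalues i ^ k := by
  conv_lhs => rw [hA.spectral_theorem, ← map_pow, conjStarAlgAut_apply, trace_mul_cycle,
    diagonal_pow]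
  simp

lemma root {n : Type} [Fintype n] [DecidableEq n] {A : Matrix n n ℝ} (hA : A.IsHermitian)
    (h : A ^ 5 + (9 : ℝ) • A = (10 : ℝ) • A ^ 3) (i : n) :
    hA.eigenvalues i ^ 5 + 9 * hA.eigenvalues i = 10 * hA.eigenvalues i ^ 3 := by
  rw [hA.spectral_theorem, ← map_pow, ← map_pow, ← map_smul, ← map_smul, ← map_add] at h
  have := congrFun (congrFun (EquivLike.injective _ h) i) i
  simpa [diagonal_pow] using this

theorem result : ∃ (n : ℕ) (G : SimpleGraph (Fin n)) (_ : DecidableRel G.Adj)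
    (hA : (G.adjMatrix ℝ).IsHermitian) (l : ℝ), G.Connected ∧ 1 ≤ G.edgeFinset.card ∧
    IsGreatest (Set.range hA.eigenvalues) l ∧
    2 * (G.edgeFinset.card : ℝ) / √l < ∑ i, |hA.eigenvalues i| := by
  have hA : (G0.adjMatrix ℝ).IsHermitian := by
    ext i j; simp [SimpleGraph.adjMatrix_apply, G0.adj_comm]
  have hm : G0.edgeFinset.card = 16 := by decide +kernel
  have p2 : G0.adjMatrix ℤ ^ 2 = A2 := by rw [pow_two, e2]
  have p3 : G0.adjMatrix ℤ ^ 3 = A3 := by rw [pow_succ, p2, e3]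
  have h5 : G0.adjMatrix ℝ ^ 5 + (9 : ℝ) • G0.adjMatrix ℝ = (10 : ℝ) • G0.adjMatrix ℝ ^ 3 := by
    have : G0.adjMatrix ℤ ^ 5 + 9 * G0.adjMatrix ℤ = 10 * G0.adjMatrix ℤ ^ 3 := by
      rw [show 5 = 2 + 3 by rfl, pow_add, p2, p3]
      simpa [zsmul_eq_mul] using e5
    have := congrArg (Int.castRingHom ℝ).mapMatrix this
    rw [map_add, map_mul, map_mul, map_pow, map_pow, ← cast_adj, map_ofNat, map_ofNat] at this
    rw [ofNat_smul_eq_nsmul, ofNat_smul_eq_nsmul ℝ 10, nsmul_eq_mul, nsmul_eq_mul]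
    exact_mod_cast this
  have tr : ∀ k, (G0.adjMatrix ℝ ^ k).trace = ((G0.adjMatrix ℤ ^ k).trace : ℤ) := by
    intro k
    rw [cast_adj, ← map_pow]
    simp [trace]
  have s2 := tr_pow hA 2
  have s4 := tr_pow hA 4
  rw [tr, p2, t2] at s2
  rw [tr, show 4 = 2 + 2 by rfl, pow_add, p2, t4] at s4
  have rt : ∀ i, hA.eigenvalues i = 0 ∨ hA.eigenvalues i = 1 ∨ hA.eigenvalues i = -1 ∨
      hA.eigenvalues i = 3 ∨ hA.eigenvalues i = -3 := by
    intro i
    have := root hA h5 i
    set x := hA.eigenvalues i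
    have e : x * ((x - 1) * ((x + 1) * ((x - 3) * (x + 3)))) = 0 := by linear_combination this
    simp only [mul_eq_zero, sub_eq_zero, add_eq_zero_iff_eq_neg] at e
    exact e
  have hE : ∑ i, |hA.eigenvalues i| = 20 := by
    have : ∀ i, |hA.eigenvalues i| = (13 * hA.eigenvalues i ^ 2 - hA.eigenvalues i ^ (2 + 2)) / 12 := by
      intro i
      rcases rt i with h | h | h | h | h <;> rw [h] <;> norm_num
    simp only [this]
    rw [← Finset.sum_div, Finset.sum_sub_distrib, ← Finset.mul_sum, ← s2, ← s4]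
    norm_num
  refine ⟨17, G0, inferInstance, hA, 3, ?_, by omega, ⟨?_, ?_⟩, ?_⟩
  · have : ∀ x, x = 0 ∨ G0.Adj 0 x ∨ ∃ y, G0.Adj 0 y ∧ G0.Adj y x := by decide +kernel
    refine (SimpleGraph.connected_iff_exists_forall_reachable _).mpr ⟨0, fun x => ?_⟩
    rcases this x with rfl | h | ⟨y, h1, h2⟩
    · rfl
    · exact h.reachable
    · exact h1.reachable.trans h2.reachable
  · by_contra hn
    have s1 := tr_pow hA 1
    have s3 := tr_pow hA 3
    have t3 : A3.trace = 0 := by decide +kernel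
    rw [tr, p3, t3] at s3
    rw [pow_one, SimpleGraph.trace_adjMatrix] at s1
    have : ∀ i, hA.eigenvalues i ^ (2 + 2) - hA.eigenvalues i ^ 2 +
        3 * (hA.eigenvalues i ^ 3 - hA.eigenvalues i ^ 1) = 0 := by
      intro i
      rcases rt i with h | h | h | h | h
      · rw [h]; norm_num
      · rw [h]; norm_num
      · rw [h]; norm_num
      · exact absurd ⟨i, h⟩ hn
      · rw [h]; norm_num
    have k := Finset.sum_eq_zero (s := Finset.univ) fun i _ => this i
    rw [Finset.sum_add_distrib, Finset.sum_sub_distrib, ← Finset.mul_sum, Finset.sum_sub_distrib,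
      ← s1, ← s2, ← s3, ← s4] at k
    norm_num at k
  · rintro _ ⟨i, rfl⟩
    rcases rt i with h | h | h | h | h <;> rw [h] <;> norm_num
  · rw [hE, hm, div_lt_iff₀ (by positivity)]
    have : (1.7 : ℝ) < √3 := Real.lt_sqrt_of_sq_lt (by norm_num)
    push_cast
    linarith

end Pool.Agent.Results.MP_4a987e_co.Spider
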